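import Mathlib

set_option maxHeartbeats 1000000

namespace Pool.Agent.Results.MP_92077f_co.NotMono

open Finset

section defs
variable {V : Type} [Fintype V]

open Classical in
/-- `g(N[v])`, the weight of the closed neighbourhood of `v` -/
noncomputable def nb (G : SimpleGraph V) (g : V → ℕ) (v : V) : ℕ :=
  ∑ u, if u = v ∨ G.Adj v u then g u else 0

/-- `g` is a minimal `k`-dominating function -/
def MinDom (G : SimpleGraph V) (k : ℕ) (g : V → ℕ) : Prop :=
  (∀ v, g v ≤ k) ∧ (∀ v, k ≤ nb G g v) ∧ ∀ v, 0 < g v → ∃ u, (u = v ∨ G.Adj v u) ∧ nb G g u = k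

/-- the upper `k`-domination number -/
noncomputable def Gam (G : SimpleGraph V) (k : ℕ) : ℕ := sSup {w | ∃ g, MinDom G k g ∧ ∑ v, g v = w}

end defs

def L7 : List ℕ := [0, 1, 2, 3, 4, 5, 6]

def val (l a b c d e f : ℕ) : ℕ :=
  (l - (c + d + e + f)) + (l - (b + d + e + f)) + (l - (b + c + e + f)) + (l - (b + c + d + f)) +
  (l - (b + c + d + e)) + (l - (a + d + e + f)) + (l - (a + c + e + f)) + (l - (a + c + d + f)) +
  (l - (a + c + d + e)) + (l - (a + b + e + f)) + (l - (a + b + d + f)) + (l - (a + b + d + e)) +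
  (l - (a + b + c + f)) + (l - (a + b + c + e)) + (l - (a + b + c + d))

def top (a b c d e f : ℕ) : ℕ :=
  min 6 (a + b + c + d + e + f - max a (max b (max c (max d (max e f)))))

theorem chk : (L7.all fun a => L7.all fun b => L7.all fun c => L7.all fun d => L7.all fun e =>
    L7.all fun f => Nat.ble (val (top a b c d e f) a b c d e f) 12 ||
      (a == 1 && b == 1 && c == 1 && d == 1 && e == 1 && f == 1)) = true := by decide +kernel

theorem val_le {l a b c d e f : ℕ} (ha : a ≤ 6) (hb : b ≤ 6) (hc : c ≤ 6) (hd : d ≤ 6) (he : e ≤ 6)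
    (hf : f ≤ 6) (hl : l ≤ top a b c d e f)
    (h1 : a = 1 → b = 1 → c = 1 → d = 1 → e = 1 → f = 1 → l ≤ 4) : val l a b c d e f ≤ 12 := by
  have m : ∀ x ≤ 6, x ∈ L7 := by decide
  have := chk
  simp only [List.all_eq_true] at this
  have := this a (m a ha) b (m b hb) c (m c hc) d (m d hd) e (m e he) f (m f hf)
  simp only [Bool.or_eq_true, Nat.ble_eq, Bool.and_eq_true, beq_iff_eq] at this
  rcases this with h | ⟨⟨⟨⟨⟨rfl, rfl⟩, rfl⟩, rfl⟩, rfl⟩, rfl⟩
  · refine le_trans ?_ h
    unfold val; gcongr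
  · have := h1 rfl rfl rfl rfl rfl rfl
    unfold val; omega

abbrev E := {e : Fin 6 × Fin 6 // e.1 < e.2}
abbrev I := E × Fin 31
abbrev V := Fin 6 ⊕ I ⊕ Option I

def out (i : I) (x : Fin 6) : Prop := x ≠ i.1.1.1 ∧ x ≠ i.1.1.2
instance (i : I) (x : Fin 6) : Decidable (out i x) := by unfold out; infer_instance

def R : V → V → Prop
  | .inl x, .inl y => y ≠ x + 3
  | .inl x, .inr (.inl i) => out i x
  | .inl _, .inr (.inr _) => False
  | .inr (.inl i), .inl x => out i x
  | .inr (.inl _), .inr (.inl _) => True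
  | .inr (.inl i), .inr (.inr j) => j = some i
  | .inr (.inr _), .inl _ => False
  | .inr (.inr j), .inr (.inl i) => j = some i
  | .inr (.inr _), .inr (.inr _) => True

theorem R_symm : ∀ a b, R a b → R b a := by
  rintro (x | i | j) (y | i' | j') <;> simp only [R, imp_self]
  revert x y; decide

theorem R_refl : ∀ a, R a a := by
  rintro (x | i | j) <;> simp only [R]
  revert x; decide

def G : SimpleGraph V where
  Adj a b := a ≠ b ∧ R a b
  symm := ⟨fun _ _ h => ⟨h.1.symm, R_symm _ _ h.2⟩⟩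
  loopless := ⟨fun _ h => h.1 rfl⟩

theorem adj_iff (v u : V) : (u = v ∨ G.Adj v u) ↔ R v u := by
  constructor
  · rintro (rfl | h); exacts [R_refl _, h.2]
  · intro h; by_cases e : u = v; exacts [.inl e, .inr ⟨Ne.symm e, h⟩]

theorem nb_d (g : V → ℕ) (x : Fin 6) : nb G g (.inl x) =
    (∑ y, if y ≠ x + 3 then g (.inl y) else 0) + ∑ i, if out i x then g (.inr (.inl i)) else 0 := by
  simp only [nb, adj_iff, Fintype.sum_sum_type, R, if_false, sum_const_zero, add_zero]

theorem nb_u (g : V → ℕ) (i : I) : nb G g (.inr (.inl i)) =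
    (∑ y, if out i y then g (.inl y) else 0) + (∑ j, g (.inr (.inl j)) + g (.inr (.inr (some i)))) := by
  simp only [nb, adj_iff, Fintype.sum_sum_type, R, if_true, sum_ite_eq', mem_univ]

theorem nb_w (g : V → ℕ) (j : Option I) : nb G g (.inr (.inr j)) =
    (∑ i, if j = some i then g (.inr (.inl i)) else 0) + ∑ j, g (.inr (.inr j)) := by
  simp only [nb, adj_iff, Fintype.sum_sum_type, R, if_true, if_false, sum_const_zero, zero_add]

def g5 : V → ℕ
  | .inl _ => 1
  | .inr (.inl _) => 0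
  | .inr (.inr none) => 0
  | .inr (.inr (some _)) => 1

theorem low : MinDom G 5 g5 ∧ ∑ v, g5 v = 471 := by
  have hd : ∀ x, nb G g5 (.inl x) = 5 := by
    intro x; rw [nb_d]; simp only [g5, ite_self, sum_const_zero]; revert x; decide
  have hu : ∀ i, nb G g5 (.inr (.inl i)) = 5 := by
    rintro ⟨e, j⟩; rw [nb_u]; simp only [g5, sum_const_zero, out]; revert e; decide
  have hI : Fintype.card I = 465 := by decide +kernel
  refine ⟨⟨?_, ?_, ?_⟩, ?_⟩
  · rintro (x | i | _ | j) <;> simp [g5]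
  · rintro (x | i | j)
    · rw [hd]
    · rw [hu]
    · rw [nb_w, Fintype.sum_option]; simp [g5, hI]
  · rintro (x | i | _ | j) h
    · exact ⟨_, .inl rfl, hd x⟩
    · simp [g5] at h
    · simp [g5] at h
    · exact ⟨.inr (.inl j), (adj_iff _ _).2 rfl, hu j⟩
  · simp [Fintype.sum_sum_type, Fintype.sum_option, g5, hI]

theorem up {g : V → ℕ} (h : MinDom G 6 g) : ∑ v, g v ≤ 470 := by
  obtain ⟨h1, h2, h3⟩ := h
  simp only [adj_iff] at h3
  set s := ∑ j, g (.inr (.inl j)) with hs
  have hD : ∑ x, g (.inl x) ≤ 36 := (sum_le_card_nsmul _ _ 6 fun x _ => h1 _).trans (by simp)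
  have hp := h2 (.inr (.inr none))
  rw [nb_w] at hp
  simp only [reduceCtorEq, if_false, sum_const_zero, zero_add] at hp
  have hU : s ≤ 42 := by
    by_cases ht : ∃ i, nb G g (.inr (.inl i)) = 6
    · obtain ⟨i, hi⟩ := ht
      rw [nb_u] at hi; omega
    have : s ≤ ∑ x : Fin 6, if nb G g (.inl x) = 6 then
        ∑ i, (if out i x then g (.inr (.inl i)) else 0) else 0 := by
      have e : ∀ x : Fin 6, (if nb G g (.inl x) = 6 then
          ∑ i, (if out i x then g (.inr (.inl i)) else 0) else 0) =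
          ∑ i, if nb G g (.inl x) = 6 ∧ out i x then g (.inr (.inl i)) else 0 := by
        intro x; split_ifs with hx <;> simp [hx]
      rw [sum_congr rfl fun x _ => e x, sum_comm]
      refine sum_le_sum fun i _ => ?_
      rcases Nat.eq_zero_or_pos (g (.inr (.inl i))) with h0 | h0
      · omega
      obtain ⟨x | i' | j, hr, ht'⟩ := h3 _ h0
      · exact le_trans (by rw [if_pos ⟨ht', hr⟩]) (single_le_sum (f := fun x : Fin 6 =>
          if nb G g (.inl x) = 6 ∧ out i x then g (.inr (.inl i)) else 0)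
          (fun _ _ => Nat.zero_le _) (mem_univ x))
      · exact absurd ⟨i', ht'⟩ ht
      · obtain rfl : j = some i := hr
        rw [nb_w] at ht'
        simp only [Option.some.injEq, sum_ite_eq, mem_univ, if_true] at ht'
        omega
    refine this.trans ((sum_le_card_nsmul _ _ 6 fun x _ => ?_).trans (by simp))
    split_ifs with hx
    · rw [nb_d] at hx; omega
    · omega
  have hW : ∑ j, g (.inr (.inr j)) ≤ 378 := by
    by_cases ht : ∃ j, nb G g (.inr (.inr j)) = 6
    · obtain ⟨j, hj⟩ := ht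
      rw [nb_w] at hj; omega
    have h4 : ∀ i : I, g (.inr (.inr (some i))) ≤
        6 - s - ∑ y, if out i y then g (.inl y) else 0 := by
      intro i
      rcases Nat.eq_zero_or_pos (g (.inr (.inr (some i)))) with h0 | h0
      · omega
      obtain ⟨x | i' | j, hr, ht'⟩ := h3 _ h0
      · exact hr.elim
      · obtain rfl : i = i' := Option.some.inj hr
        rw [nb_u] at ht'; omega
      · exact absurd ⟨j, ht'⟩ ht
    have h5 : ∀ x, ∑ i, (if out i x then g (.inr (.inl i)) else 0) ≤ s := fun x =>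
      sum_le_sum fun i _ => by split_ifs <;> omega
    have h6 : ∀ x, 6 ≤ (∑ y, if y ≠ x + 3 then g (.inl y) else 0) + s := fun x => by
      have := h2 (.inl x); rw [nb_d] at this; have := h5 x; omega
    have h7 : s = 0 ∨ ∃ x, 7 ≤ (∑ y, if y ≠ x + 3 then g (.inl y) else 0) + s := by
      refine (Nat.eq_zero_or_pos s).imp_right fun h0 => ?_
      obtain ⟨i, -, hi⟩ := exists_ne_zero_of_sum_ne_zero h0.ne'
      refine ⟨i.1.1.1, ?_⟩
      have := h2 (.inl i.1.1.1); rw [nb_d] at this
      have : ∑ j, (if out j i.1.1.1 then g (.inr (.inl j)) else 0) < s :=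
        sum_lt_sum (fun i _ => by split_ifs <;> omega) ⟨i, mem_univ _, by
          rw [if_neg fun h => h.1 rfl]; omega⟩
      omega
    have h8 : ∑ e : E, (6 - s - ∑ y, if out (e, 0) y then g (.inl y) else 0) ≤ 12 := by
      have e : ∀ (l : ℕ) (a : Fin 6 → ℕ), ∑ e : E, (l - ∑ y, if out (e, 0) y then a y else 0) =
          val l (a 0) (a 1) (a 2) (a 3) (a 4) (a 5) := by
        intro l a
        have : (univ : Finset E) = {⟨(0, 1), by decide⟩, ⟨(0, 2), by decide⟩, ⟨(0, 3), by decide⟩,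
          ⟨(0, 4), by decide⟩, ⟨(0, 5), by decide⟩, ⟨(1, 2), by decide⟩, ⟨(1, 3), by decide⟩,
          ⟨(1, 4), by decide⟩, ⟨(1, 5), by decide⟩, ⟨(2, 3), by decide⟩, ⟨(2, 4), by decide⟩,
          ⟨(2, 5), by decide⟩, ⟨(3, 4), by decide⟩, ⟨(3, 5), by decide⟩, ⟨(4, 5), by decide⟩} := by
          decide
        rw [this]
        simp [Fin.sum_univ_six, out, val, add_assoc]
      rw [e (6 - s) fun y => g (.inl y)]
      have a0 := h6 0; have a1 := h6 1; have a2 := h6 2; have a3 := h6 3; have a4 := h6 4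
      have a5 := h6 5
      simp [Fin.sum_univ_six] at a0 a1 a2 a3 a4 a5
      refine val_le (h1 _) (h1 _) (h1 _) (h1 _) (h1 _) (h1 _) (by unfold top; omega) ?_
      intro b0 b1 b2 b3 b4 b5
      rcases h7 with h7 | ⟨x, hx⟩
      · omega
      · fin_cases x <;> simp [Fin.sum_univ_six] at hx <;> omega
    rw [Fintype.sum_option]
    have h9 : ∑ i : I, g (.inr (.inr (some i))) ≤ 31 * 12 := by
      refine (sum_le_sum fun i _ => h4 i).trans ?_
      rw [Fintype.sum_prod_type_right]
      exact (sum_le_card_nsmul _ _ 12 fun j _ => h8).trans (by simp)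
    have := h1 (.inr (.inr none))
    omega
  rw [Fintype.sum_sum_type, Fintype.sum_sum_type]
  omega

theorem result : ∃ (V : Type) (_ : Fintype V) (G : SimpleGraph V) (k : ℕ), Nonempty V ∧ 0 < k ∧
    Gam G (k + 1) < Gam G k := by
  refine ⟨V, inferInstance, G, 5, inferInstance, by norm_num, ?_⟩
  have h1 : Gam G 6 ≤ 470 := csSup_le' (by rintro _ ⟨g, hg, rfl⟩; exact up hg)
  have h2 : 471 ≤ Gam G 5 := le_csSup ⟨5 * Fintype.card V, by
    rintro _ ⟨g, hg, rfl⟩
    exact (sum_le_card_nsmul _ _ 5 fun x _ => hg.1 x).trans (by simp [mul_comm])⟩ ⟨g5, low⟩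
  show Gam G 6 < _
  omega

end Pool.Agent.Results.MP_92077f_co.NotMono
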